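import Pool.Agent.Lib_helper72.K8a.Cl

/-!
# The curve with `b = 3`, `c = 3/2`: identities
-/

set_option autoImplicit false
set_option linter.unusedSectionVars false
set_option linter.unusedSimpArgs false
set_option linter.unusedVariables false

namespace Pool.Agent.K8a

open Polynomial WeierstrassCurve.Affine WithZero TN K8 KC72

section

variable {k : Type*} [Field k] [CharZero k] {F : Type*} [Field F] [Algebra k F] {x y : F}


lemma bp0 (h : Gen (3 : k) (3/2) x y) :
    KC72.ev (List.ofFn (G8 x y)) (true, [0, 0, 0, 0, 0, 0, 0, 1, 0]) + KC72.ev (List.ofFn (G8 x y)) (false, [1, 0, 0, 0, 0, 0, 0, 0, 0]) =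
      KC72.ev (List.ofFn (G8 x y)) (false, [0, 0, 0, 1, 0, 0, 0, 0, 0]) := by
  have := cz (k := k) (F := F)
  have he := Gen.eq' h
  have v1 : KC72.ev (List.ofFn (G8 x y)) (true, [0, 0, 0, 0, 0, 0, 0, 1, 0]) = (-2) := by
    rw [ev_G8 (k := k)]
    simp [M8, Fin.prod_univ_succ, uF, zpow_ofNat, map_ofNat]
    all_goals first
      | done
      | ring1
      | (left; norm_num; done)
      | (norm_num; done)
      | (norm_num; ring1)
  have v2 : KC72.ev (List.ofFn (G8 x y)) (false, [1, 0, 0, 0, 0, 0, 0, 0, 0]) = (1) * (x) ^ 1 := by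
    rw [ev_G8 (k := k)]
    simp [M8, Fin.prod_univ_succ, uF, zpow_ofNat, map_ofNat]
    all_goals first
      | done
      | ring1
      | (left; norm_num; done)
      | (norm_num; done)
      | (norm_num; ring1)
  have v3 : KC72.ev (List.ofFn (G8 x y)) (false, [0, 0, 0, 1, 0, 0, 0, 0, 0]) = (1) * (x - 2) ^ 1 := by
    rw [ev_G8 (k := k)]
    simp [M8, Fin.prod_univ_succ, uF, zpow_ofNat, map_ofNat]
    all_goals first
      | done
      | ring1
      | (left; norm_num; done)
      | (norm_num; done)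
      | (norm_num; ring1)
  rw [v1, v2, v3]
  linear_combination (0) * he


lemma bp1 (h : Gen (3 : k) (3/2) x y) :
    KC72.ev (List.ofFn (G8 x y)) (false, [0, 0, 0, 0, 0, 0, 0, 0, 0]) + KC72.ev (List.ofFn (G8 x y)) (false, [0, 1, 0, 0, 0, 0, 0, 0, 0]) =
      KC72.ev (List.ofFn (G8 x y)) (false, [0, 0, 0, 1, 0, 0, 0, 0, 0]) := by
  have := cz (k := k) (F := F)
  have he := Gen.eq' h
  have v1 : KC72.ev (List.ofFn (G8 x y)) (false, [0, 0, 0, 0, 0, 0, 0, 0, 0]) = (1) := by
    rw [ev_G8 (k := k)]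
    simp [M8, Fin.prod_univ_succ, uF, zpow_ofNat, map_ofNat]
    all_goals first
      | done
      | ring1
      | (left; norm_num; done)
      | (norm_num; done)
      | (norm_num; ring1)
  have v2 : KC72.ev (List.ofFn (G8 x y)) (false, [0, 1, 0, 0, 0, 0, 0, 0, 0]) = (1) * (x - 3) ^ 1 := by
    rw [ev_G8 (k := k)]
    simp [M8, Fin.prod_univ_succ, uF, zpow_ofNat, map_ofNat]
    all_goals first
      | done
      | ring1
      | (left; norm_num; done)
      | (norm_num; done)
      | (norm_num; ring1)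
  have v3 : KC72.ev (List.ofFn (G8 x y)) (false, [0, 0, 0, 1, 0, 0, 0, 0, 0]) = (1) * (x - 2) ^ 1 := by
    rw [ev_G8 (k := k)]
    simp [M8, Fin.prod_univ_succ, uF, zpow_ofNat, map_ofNat]
    all_goals first
      | done
      | ring1
      | (left; norm_num; done)
      | (norm_num; done)
      | (norm_num; ring1)
  rw [v1, v2, v3]
  linear_combination (0) * he


lemma bp2 (h : Gen (3 : k) (3/2) x y) :
    KC72.ev (List.ofFn (G8 x y)) (false, [0, 0, 1, 0, 0, 0, 0, 1, 0]) + KC72.ev (List.ofFn (G8 x y)) (true, [0, 1, 0, 0, 0, 0, 0, 1, 0]) =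
      KC72.ev (List.ofFn (G8 x y)) (false, [0, 0, 0, 0, 0, 0, 0, 0, 1]) := by
  have := cz (k := k) (F := F)
  have he := Gen.eq' h
  have v1 : KC72.ev (List.ofFn (G8 x y)) (false, [0, 0, 1, 0, 0, 0, 0, 1, 0]) = (2) * (x - (3/2)) ^ 1 := by
    rw [ev_G8 (k := k)]
    simp [M8, Fin.prod_univ_succ, uF, zpow_ofNat, map_ofNat]
    all_goals first
      | done
      | ring1
      | (left; norm_num; done)
      | (norm_num; done)
      | (norm_num; ring1)
  have v2 : KC72.ev (List.ofFn (G8 x y)) (true, [0, 1, 0, 0, 0, 0, 0, 1, 0]) = (-2) * (x - 3) ^ 1 := by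
    rw [ev_G8 (k := k)]
    simp [M8, Fin.prod_univ_succ, uF, zpow_ofNat, map_ofNat]
    all_goals first
      | done
      | ring1
      | (left; norm_num; done)
      | (norm_num; done)
      | (norm_num; ring1)
  have v3 : KC72.ev (List.ofFn (G8 x y)) (false, [0, 0, 0, 0, 0, 0, 0, 0, 1]) = (3) := by
    rw [ev_G8 (k := k)]
    simp [M8, Fin.prod_univ_succ, uF, zpow_ofNat, map_ofNat]
    all_goals first
      | done
      | ring1
      | (left; norm_num; done)
      | (norm_num; done)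
      | (norm_num; ring1)
  rw [v1, v2, v3]
  linear_combination (0) * he


lemma bp3 (h : Gen (3 : k) (3/2) x y) :
    KC72.ev (List.ofFn (G8 x y)) (true, [0, 0, 1, 0, 0, 0, 0, 1, 0]) + KC72.ev (List.ofFn (G8 x y)) (false, [1, 0, 0, 0, 0, 0, 0, 1, 0]) =
      KC72.ev (List.ofFn (G8 x y)) (false, [0, 0, 0, 0, 0, 0, 0, 0, 1]) := by
  have := cz (k := k) (F := F)
  have he := Gen.eq' h
  have v1 : KC72.ev (List.ofFn (G8 x y)) (true, [0, 0, 1, 0, 0, 0, 0, 1, 0]) = (-2) * (x - (3/2)) ^ 1 := by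
    rw [ev_G8 (k := k)]
    simp [M8, Fin.prod_univ_succ, uF, zpow_ofNat, map_ofNat]
    all_goals first
      | done
      | ring1
      | (left; norm_num; done)
      | (norm_num; done)
      | (norm_num; ring1)
  have v2 : KC72.ev (List.ofFn (G8 x y)) (false, [1, 0, 0, 0, 0, 0, 0, 1, 0]) = (2) * (x) ^ 1 := by
    rw [ev_G8 (k := k)]
    simp [M8, Fin.prod_univ_succ, uF, zpow_ofNat, map_ofNat]
    all_goals first
      | done
      | ring1
      | (left; norm_num; done)
      | (norm_num; done)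
      | (norm_num; ring1)
  have v3 : KC72.ev (List.ofFn (G8 x y)) (false, [0, 0, 0, 0, 0, 0, 0, 0, 1]) = (3) := by
    rw [ev_G8 (k := k)]
    simp [M8, Fin.prod_univ_succ, uF, zpow_ofNat, map_ofNat]
    all_goals first
      | done
      | ring1
      | (left; norm_num; done)
      | (norm_num; done)
      | (norm_num; ring1)
  rw [v1, v2, v3]
  linear_combination (0) * he


lemma bp4 (h : Gen (3 : k) (3/2) x y) :
    KC72.ev (List.ofFn (G8 x y)) (true, [0, 1, 0, 0, 0, 0, 0, 0, 0]) + KC72.ev (List.ofFn (G8 x y)) (false, [1, 0, 0, 0, 0, 0, 0, 0, 0]) =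
      KC72.ev (List.ofFn (G8 x y)) (false, [0, 0, 0, 0, 0, 0, 0, 0, 1]) := by
  have := cz (k := k) (F := F)
  have he := Gen.eq' h
  have v1 : KC72.ev (List.ofFn (G8 x y)) (true, [0, 1, 0, 0, 0, 0, 0, 0, 0]) = (-1) * (x - 3) ^ 1 := by
    rw [ev_G8 (k := k)]
    simp [M8, Fin.prod_univ_succ, uF, zpow_ofNat, map_ofNat]
    all_goals first
      | done
      | ring1
      | (left; norm_num; done)
      | (norm_num; done)
      | (norm_num; ring1)
  have v2 : KC72.ev (List.ofFn (G8 x y)) (false, [1, 0, 0, 0, 0, 0, 0, 0, 0]) = (1) * (x) ^ 1 := by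
    rw [ev_G8 (k := k)]
    simp [M8, Fin.prod_univ_succ, uF, zpow_ofNat, map_ofNat]
    all_goals first
      | done
      | ring1
      | (left; norm_num; done)
      | (norm_num; done)
      | (norm_num; ring1)
  have v3 : KC72.ev (List.ofFn (G8 x y)) (false, [0, 0, 0, 0, 0, 0, 0, 0, 1]) = (3) := by
    rw [ev_G8 (k := k)]
    simp [M8, Fin.prod_univ_succ, uF, zpow_ofNat, map_ofNat]
    all_goals first
      | done
      | ring1
      | (left; norm_num; done)
      | (norm_num; done)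
      | (norm_num; ring1)
  rw [v1, v2, v3]
  linear_combination (0) * he


lemma bp5 (h : Gen (3 : k) (3/2) x y) :
    KC72.ev (List.ofFn (G8 x y)) (true, [0, 1, 0, 0, 0, 0, 0, 0, 0]) + KC72.ev (List.ofFn (G8 x y)) (false, [0, 0, 1, 0, 0, 0, 0, 1, 0]) =
      KC72.ev (List.ofFn (G8 x y)) (false, [1, 0, 0, 0, 0, 0, 0, 0, 0]) := by
  have := cz (k := k) (F := F)
  have he := Gen.eq' h
  have v1 : KC72.ev (List.ofFn (G8 x y)) (true, [0, 1, 0, 0, 0, 0, 0, 0, 0]) = (-1) * (x - 3) ^ 1 := by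
    rw [ev_G8 (k := k)]
    simp [M8, Fin.prod_univ_succ, uF, zpow_ofNat, map_ofNat]
    all_goals first
      | done
      | ring1
      | (left; norm_num; done)
      | (norm_num; done)
      | (norm_num; ring1)
  have v2 : KC72.ev (List.ofFn (G8 x y)) (false, [0, 0, 1, 0, 0, 0, 0, 1, 0]) = (2) * (x - (3/2)) ^ 1 := by
    rw [ev_G8 (k := k)]
    simp [M8, Fin.prod_univ_succ, uF, zpow_ofNat, map_ofNat]
    all_goals first
      | done
      | ring1
      | (left; norm_num; done)
      | (norm_num; done)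
      | (norm_num; ring1)
  have v3 : KC72.ev (List.ofFn (G8 x y)) (false, [1, 0, 0, 0, 0, 0, 0, 0, 0]) = (1) * (x) ^ 1 := by
    rw [ev_G8 (k := k)]
    simp [M8, Fin.prod_univ_succ, uF, zpow_ofNat, map_ofNat]
    all_goals first
      | done
      | ring1
      | (left; norm_num; done)
      | (norm_num; done)
      | (norm_num; ring1)
  rw [v1, v2, v3]
  linear_combination (0) * he


lemma bp6 (h : Gen (3 : k) (3/2) x y) :
    KC72.ev (List.ofFn (G8 x y)) (true, [1, 0, 0, 0, 0, 0, 0, 0, 0]) + KC72.ev (List.ofFn (G8 x y)) (false, [0, 0, 0, 0, 1, 0, 0, 0, 0]) =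
      KC72.ev (List.ofFn (G8 x y)) (false, [0, 0, 0, 0, 0, 0, 1, 0, 0]) := by
  have := cz (k := k) (F := F)
  have he := Gen.eq' h
  have v1 : KC72.ev (List.ofFn (G8 x y)) (true, [1, 0, 0, 0, 0, 0, 0, 0, 0]) = (-1) * (x) ^ 1 := by
    rw [ev_G8 (k := k)]
    simp [M8, Fin.prod_univ_succ, uF, zpow_ofNat, map_ofNat]
    all_goals first
      | done
      | ring1
      | (left; norm_num; done)
      | (norm_num; done)
      | (norm_num; ring1)
  have v2 : KC72.ev (List.ofFn (G8 x y)) (false, [0, 0, 0, 0, 1, 0, 0, 0, 0]) = (1) * (y) ^ 1 := by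
    rw [ev_G8 (k := k)]
    simp [M8, Fin.prod_univ_succ, uF, zpow_ofNat, map_ofNat]
    all_goals first
      | done
      | ring1
      | (left; norm_num; done)
      | (norm_num; done)
      | (norm_num; ring1)
  have v3 : KC72.ev (List.ofFn (G8 x y)) (false, [0, 0, 0, 0, 0, 0, 1, 0, 0]) = (1) * (y - x) ^ 1 := by
    rw [ev_G8 (k := k)]
    simp [M8, Fin.prod_univ_succ, uF, zpow_ofNat, map_ofNat]
    all_goals first
      | done
      | ring1
      | (left; norm_num; done)
      | (norm_num; done)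
      | (norm_num; ring1)
  rw [v1, v2, v3]
  linear_combination (0) * he


lemma bp7 (h : Gen (3 : k) (3/2) x y) :
    KC72.ev (List.ofFn (G8 x y)) (false, [0, 0, 0, 0, 1, 0, 0, 0, 0]) + KC72.ev (List.ofFn (G8 x y)) (false, [0, 0, 0, 0, 0, 1, 0, 1, 0]) =
      KC72.ev (List.ofFn (G8 x y)) (false, [0, 0, 0, 0, 0, 0, 1, 0, 1]) := by
  have := cz (k := k) (F := F)
  have he := Gen.eq' h
  have v1 : KC72.ev (List.ofFn (G8 x y)) (false, [0, 0, 0, 0, 1, 0, 0, 0, 0]) = (1) * (y) ^ 1 := by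
    rw [ev_G8 (k := k)]
    simp [M8, Fin.prod_univ_succ, uF, zpow_ofNat, map_ofNat]
    all_goals first
      | done
      | ring1
      | (left; norm_num; done)
      | (norm_num; done)
      | (norm_num; ring1)
  have v2 : KC72.ev (List.ofFn (G8 x y)) (false, [0, 0, 0, 0, 0, 1, 0, 1, 0]) = (2) * (y - (3/2) * x) ^ 1 := by
    rw [ev_G8 (k := k)]
    simp [M8, Fin.prod_univ_succ, uF, zpow_ofNat, map_ofNat]
    all_goals first
      | done
      | ring1
      | (left; norm_num; done)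
      | (norm_num; done)
      | (norm_num; ring1)
  have v3 : KC72.ev (List.ofFn (G8 x y)) (false, [0, 0, 0, 0, 0, 0, 1, 0, 1]) = (3) * (y - x) ^ 1 := by
    rw [ev_G8 (k := k)]
    simp [M8, Fin.prod_univ_succ, uF, zpow_ofNat, map_ofNat]
    all_goals first
      | done
      | ring1
      | (left; norm_num; done)
      | (norm_num; done)
      | (norm_num; ring1)
  rw [v1, v2, v3]
  linear_combination (0) * he


lemma bp8 (h : Gen (3 : k) (3/2) x y) :
    KC72.ev (List.ofFn (G8 x y)) (false, [0, 0, 2, 0, 0, 0, 0, 2, 0]) + KC72.ev (List.ofFn (G8 x y)) (true, [1, 1, 0, 0, 0, 0, 0, 2, 0]) =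
      KC72.ev (List.ofFn (G8 x y)) (false, [0, 0, 0, 0, 0, 0, 0, 0, 2]) := by
  have := cz (k := k) (F := F)
  have he := Gen.eq' h
  have v1 : KC72.ev (List.ofFn (G8 x y)) (false, [0, 0, 2, 0, 0, 0, 0, 2, 0]) = (4) * (x - (3/2)) ^ 2 := by
    rw [ev_G8 (k := k)]
    simp [M8, Fin.prod_univ_succ, uF, zpow_ofNat, map_ofNat]
    all_goals first
      | done
      | ring1
      | (left; norm_num; done)
      | (norm_num; done)
      | (norm_num; ring1)
  have v2 : KC72.ev (List.ofFn (G8 x y)) (true, [1, 1, 0, 0, 0, 0, 0, 2, 0]) = (-4) * (x) ^ 1 * (x - 3) ^ 1 := by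
    rw [ev_G8 (k := k)]
    simp [M8, Fin.prod_univ_succ, uF, zpow_ofNat, map_ofNat]
    all_goals first
      | done
      | ring1
      | (left; norm_num; done)
      | (norm_num; done)
      | (norm_num; ring1)
  have v3 : KC72.ev (List.ofFn (G8 x y)) (false, [0, 0, 0, 0, 0, 0, 0, 0, 2]) = (9) := by
    rw [ev_G8 (k := k)]
    simp [M8, Fin.prod_univ_succ, uF, zpow_ofNat, map_ofNat]
    all_goals first
      | done
      | ring1
      | (left; norm_num; done)
      | (norm_num; done)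
      | (norm_num; ring1)
  rw [v1, v2, v3]
  linear_combination (0) * he


lemma bp9 (h : Gen (3 : k) (3/2) x y) :
    KC72.ev (List.ofFn (G8 x y)) (false, [0, 2, 0, 0, 0, 0, 0, 0, 0]) + KC72.ev (List.ofFn (G8 x y)) (false, [0, 0, 1, 0, 0, 0, 0, 1, 1]) =
      KC72.ev (List.ofFn (G8 x y)) (false, [2, 0, 0, 0, 0, 0, 0, 0, 0]) := by
  have := cz (k := k) (F := F)
  have he := Gen.eq' h
  have v1 : KC72.ev (List.ofFn (G8 x y)) (false, [0, 2, 0, 0, 0, 0, 0, 0, 0]) = (1) * (x - 3) ^ 2 := by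
    rw [ev_G8 (k := k)]
    simp [M8, Fin.prod_univ_succ, uF, zpow_ofNat, map_ofNat]
    all_goals first
      | done
      | ring1
      | (left; norm_num; done)
      | (norm_num; done)
      | (norm_num; ring1)
  have v2 : KC72.ev (List.ofFn (G8 x y)) (false, [0, 0, 1, 0, 0, 0, 0, 1, 1]) = (6) * (x - (3/2)) ^ 1 := by
    rw [ev_G8 (k := k)]
    simp [M8, Fin.prod_univ_succ, uF, zpow_ofNat, map_ofNat]
    all_goals first
      | done
      | ring1
      | (left; norm_num; done)
      | (norm_num; done)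
      | (norm_num; ring1)
  have v3 : KC72.ev (List.ofFn (G8 x y)) (false, [2, 0, 0, 0, 0, 0, 0, 0, 0]) = (1) * (x) ^ 2 := by
    rw [ev_G8 (k := k)]
    simp [M8, Fin.prod_univ_succ, uF, zpow_ofNat, map_ofNat]
    all_goals first
      | done
      | ring1
      | (left; norm_num; done)
      | (norm_num; done)
      | (norm_num; ring1)
  rw [v1, v2, v3]
  linear_combination (0) * he


lemma bp10 (h : Gen (3 : k) (3/2) x y) :
    KC72.ev (List.ofFn (G8 x y)) (true, [0, 0, 0, 1, 0, 0, 0, 0, 2]) + KC72.ev (List.ofFn (G8 x y)) (false, [1, 0, 1, 0, 0, 0, 0, 1, 0]) =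
      KC72.ev (List.ofFn (G8 x y)) (false, [0, 2, 0, 0, 0, 0, 0, 1, 0]) := by
  have := cz (k := k) (F := F)
  have he := Gen.eq' h
  have v1 : KC72.ev (List.ofFn (G8 x y)) (true, [0, 0, 0, 1, 0, 0, 0, 0, 2]) = (-9) * (x - 2) ^ 1 := by
    rw [ev_G8 (k := k)]
    simp [M8, Fin.prod_univ_succ, uF, zpow_ofNat, map_ofNat]
    all_goals first
      | done
      | ring1
      | (left; norm_num; done)
      | (norm_num; done)
      | (norm_num; ring1)
  have v2 : KC72.ev (List.ofFn (G8 x y)) (false, [1, 0, 1, 0, 0, 0, 0, 1, 0]) = (2) * (x) ^ 1 * (x - (3/2)) ^ 1 := by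
    rw [ev_G8 (k := k)]
    simp [M8, Fin.prod_univ_succ, uF, zpow_ofNat, map_ofNat]
    all_goals first
      | done
      | ring1
      | (left; norm_num; done)
      | (norm_num; done)
      | (norm_num; ring1)
  have v3 : KC72.ev (List.ofFn (G8 x y)) (false, [0, 2, 0, 0, 0, 0, 0, 1, 0]) = (2) * (x - 3) ^ 2 := by
    rw [ev_G8 (k := k)]
    simp [M8, Fin.prod_univ_succ, uF, zpow_ofNat, map_ofNat]
    all_goals first
      | done
      | ring1
      | (left; norm_num; done)
      | (norm_num; done)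
      | (norm_num; ring1)
  rw [v1, v2, v3]
  linear_combination (0) * he


lemma bp_sol (h : Gen (3 : k) (3/2) x y) : ∀ r < 11,
    KC72.ev (List.ofFn (G8 x y)) (bp.getD r default).1 +
      KC72.ev (List.ofFn (G8 x y)) (bp.getD r default).2.1 =
      KC72.ev (List.ofFn (G8 x y)) (bp.getD r default).2.2 := by
  intro r hr
  interval_cases r
  · exact bp0 h
  · exact bp1 h
  · exact bp2 h
  · exact bp3 h
  · exact bp4 h
  · exact bp5 h
  · exact bp6 h
  · exact bp7 h
  · exact bp8 h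
  · exact bp9 h
  · exact bp10 h

end

end Pool.Agent.K8a
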