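import Pool.Agent.Lib_helper40.MC.P2
import Pool.Agent.Lib_helper40.MC.T8a.Ix
import Pool.Agent.Lib_helper72.K8a.S
import Pool.Agent.Lib_helper54.FAM.LK8a
import Pool.Agent.Lib_helper76.FAM.Conj
import Pool.Agent.Lib_helper76.UE8.U8

/-!
# The first special curve with a point of order eight: the clause `Line`
-/

set_option autoImplicit false
set_option linter.unusedSectionVars false
set_option linter.unusedVariables false

open scoped TensorProduct WithZero

namespace Pool.Agent.FK4

open Pool.Agent.MK4 WeierstrassCurve.Affine Pool.Agent.KC72 Pool.Agent.MC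
open Pool.Agent.TN (Wt)
open Pool.Agent.UEG (P0)

section

variable {F : Type*} [Field F]

lemma ofFn_G8a (x y : F) : List.ofFn (K8a.G8 x y) = FK4R.g8a x y := rfl

end

lemma cls8a_eq : N8C.c8a_cls = K8a.cls := by decide +kernel

variable {k : Type*} [Field k] [DecidableEq k] [CharZero k] {W : WeierstrassCurve.Affine k}
  {F : Type*} [Field F] [Algebra k F] {X Y : F}

lemma ue8_bb2 : UE8.bb (2 : k) = 3 := by unfold UE8.bb; norm_num

lemma ue8_cc2 : UE8.cc (2 : k) = 3 / 2 := by unfold UE8.cc; norm_num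

lemma gen8a {x y : F} (h : Generic (Wt (UE8.bb (2 : k)) (UE8.cc 2)) x y) :
    TN.Gen (3 : k) (3 / 2) x y := by
  have := UE4.of_UEG h.toU
  rwa [ue8_bb2, ue8_cc2] at this

lemma supp8a {x y : F} (hO : addOrderOf (P0 (UE8.cc (2 : k)) bb8) = 8)
    (h : Generic (Wt (UE8.bb (2 : k)) (UE8.cc 2)) x y) (f : F) :
    Supp (AddSubgroup.zmultiples (P0 (UE8.cc (2 : k)) bb8)) x y f ↔ K8a.U8 k x y f := by
  have hu : UE8.uF (2 : k) x y = K8a.uF x y := by
    unfold UE8.uF K8a.uF
    rw [ue8_bb2, ue8_cc2, K8a.mapb, K8a.mapc]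
    have e1 : algebraMap k F (2 * (2 - 1)) = 2 := by rw [← map_ofNat (algebraMap k F) 2]; norm_num
    have e2 : algebraMap k F (2 - 1) = 1 := by norm_num
    rw [e1, e2, one_mul]
  rw [supp_iff, UE8.isUn8 two_ne_zero (by norm_num) (by norm_num) bb8
    (by rw [← hO]; exact addOrderOf_nsmul_eq_zero _) h.toU f, hu]
  rfl

/-- **the first special curve with a point of order eight** -/
theorem line8a (hg : Generic W X Y) {P : W.Point} (h8 : To8 P X Y) : Line P X Y := by
  obtain ⟨x, y, hG, hO, hS, htop⟩ := h8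
  have : CharZero F := charZero_of_injective_algebraMap (algebraMap k F).injective
  have hgen := gen8a hG
  have hs := fun f => supp8a hO hG f
  have heq : y ^ 2 - 1 / 2 * x * y - 3 * y = x ^ 3 - 3 * x ^ 2 := by
    have := K8a.Gen.eq' hgen
    linear_combination this
  have hne : ∀ z ∈ FK4R.g8a x y, z ≠ 0 := by
    rw [← ofFn_G8a]; exact K8a.G8l_ne hgen
  have hxi : K4N.xi8 x y = zt (List.ofFn (K8a.G8 x y)) N8C.c8a_cls L8a := by
    rw [ofFn_G8a]
    exact xi8a_eq heq hne
  have hcls : N8C.c8a_cls = K8a.cls := cls8a_eq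
  rw [hcls] at hxi
  have hLo := L8a_ok
  have hLd := L8a_D
  rw [hcls] at hLo hLd
  have hsc : sameC MC8a.c8a.cls K8a.cls = true := by rw [← hcls]; exact MC8a.same
  have hLL : L8a.map (fun t => (oo K8a.cls (t.c, t.s), t.u)) =
      MC8a.c8a_l0.map (fun t => (oo MC8a.c8a.cls (t.c, t.s), t.u)) := by decide +kernel
  refine line_rcert hg hS.toSame MC8a.c8a_ok (n := 9) (r := 7) rfl rfl
    (cls := K8a.cls) hsc
    (G := K8a.G8 x y) (by norm_num) ?_ (fun i hi => K8a.G8_const i hi)
    (fun e c hc he => K8a.G8_hM hgen e c hc he) (fun e he hp => K8a.G8_hc hgen e he hp)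
    (K8a.sols8 hgen) ?_ hLo hLd hLL hxi ?_ ?_
  · intro i
    rw [hs]
    have hu : ∀ j : Fin 7, K8a.U8 k x y (K8a.uF x y j) := by
      intro j
      refine ⟨1, Pi.single j 1, one_ne_zero, ?_⟩
      unfold K8a.M8
      rw [map_one, one_mul, Finset.prod_eq_single j]
      · rw [Pi.single_eq_same, zpow_one]
      · intro i _ hi
        rw [Pi.single_eq_of_ne hi, zpow_zero]
      · intro hj; exact absurd (Finset.mem_univ _) hj
    have hc : ∀ c : k, c ≠ 0 → K8a.U8 k x y (algebraMap k F c) := by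
      intro c hc
      refine ⟨c, 0, hc, ?_⟩
      simp [K8a.M8]
    fin_cases i
    · exact hu 0
    · exact hu 1
    · exact hu 2
    · exact hu 3
    · exact hu 4
    · exact hu 5
    · exact hu 6
    · have := hc 2 two_ne_zero
      rwa [map_ofNat] at this
    · have := hc 3 three_ne_zero
      rwa [map_ofNat] at this
  · intro f hf hf1
    rw [hs] at hf hf1
    exact K8a.unit8' hgen hf hf1
  · exact unram_xi8a heq hne
  · intro φ ht
    exact K4N.rz_xi8 φ hgen (htop ht)

end Pool.Agent.FK4
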